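import Pool.Agent.H337R2.CB.M
import Pool.Agent.H28R2.Cardy.Eval

/-!
Antisymmetry, the boundary residue, and the unconditional evaluation.
-/

namespace H337CB

open Polynomial

/-! ### degrees and reflection -/

lemma natDegree_P_le (n : ℕ) : (P n).natDegree ≤ n := by
  have key : ∀ n, (P n).natDegree ≤ n ∧ (P (n + 1)).natDegree ≤ n + 1 := by
    intro n
    induction n with
    | zero =>
      rw [P_zero, zero_add, P_one]
      constructor
      · simp
      · compute_degree
    | succ n ih =>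
      refine ⟨ih.2, ?_⟩
      obtain ⟨h1, h2⟩ := ih
      rw [show n + 1 + 1 = n + 2 from rfl, P]
      have d1 : ((6 * (n:ℚ[X]) + 9) * (1 + X) * P (n + 1)).natDegree ≤ n + 2 := by
        have e : (6 * (n:ℚ[X]) + 9) = C (6 * (n:ℚ) + 9) := by
          simp only [map_add, map_mul, map_natCast, map_ofNat]
        rw [e, mul_assoc]
        refine (natDegree_C_mul_le _ _).trans ?_
        refine natDegree_mul_le.trans ?_
        have : (1 + X : ℚ[X]).natDegree ≤ 1 := by compute_degree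
        omega
      have d2 : ((3 * (n:ℚ[X]) + 4) * (X - 1) ^ 2 * P n).natDegree ≤ n + 2 := by
        have e : (3 * (n:ℚ[X]) + 4) = C (3 * (n:ℚ) + 4) := by
          simp only [map_add, map_mul, map_natCast, map_ofNat]
        rw [e, mul_assoc]
        refine (natDegree_C_mul_le _ _).trans ?_
        refine natDegree_mul_le.trans ?_
        have : ((X - 1 : ℚ[X]) ^ 2).natDegree ≤ 2 := by compute_degree
        omega
      exact (natDegree_C_mul_le _ _).trans (by simpa using natDegree_sub_le_of_le d1 d2)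
  exact (key n).1

lemma natDegree_Ps_le (n : ℕ) : (Ps n).natDegree ≤ n := by
  have key : ∀ n, (Ps n).natDegree ≤ n ∧ (Ps (n + 1)).natDegree ≤ n + 1 := by
    intro n
    induction n with
    | zero =>
      rw [Ps_zero, zero_add, Ps_one]
      constructor
      · simp
      · compute_degree
    | succ n ih =>
      refine ⟨ih.2, ?_⟩
      obtain ⟨h1, h2⟩ := ih
      rw [show n + 1 + 1 = n + 2 from rfl, Ps]
      have d1 : ((6 * (n:ℚ[X]) + 9) * (1 + X) * Ps (n + 1)).natDegree ≤ n + 2 := by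
        have e : (6 * (n:ℚ[X]) + 9) = C (6 * (n:ℚ) + 9) := by
          simp only [map_add, map_mul, map_natCast, map_ofNat]
        rw [e, mul_assoc]
        refine (natDegree_C_mul_le _ _).trans ?_
        refine natDegree_mul_le.trans ?_
        have : (1 + X : ℚ[X]).natDegree ≤ 1 := by compute_degree
        omega
      have d2 : ((3 * (n:ℚ[X]) + 4) * (X - 1) ^ 2 * Ps n).natDegree ≤ n + 2 := by
        have e : (3 * (n:ℚ[X]) + 4) = C (3 * (n:ℚ) + 4) := by
          simp only [map_add, map_mul, map_natCast, map_ofNat]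
        rw [e, mul_assoc]
        refine (natDegree_C_mul_le _ _).trans ?_
        refine natDegree_mul_le.trans ?_
        have : ((X - 1 : ℚ[X]) ^ 2).natDegree ≤ 2 := by compute_degree
        omega
      exact (natDegree_C_mul_le _ _).trans (by simpa using natDegree_sub_le_of_le d1 d2)
  exact (key n).1

lemma reflect_one_add : reflect 1 (1 + X : ℚ[X]) = 1 + X := by
  rw [reflect_add, show (1 : ℚ[X]) = C 1 from C_1.symm, reflect_C]
  have : reflect 1 (X : ℚ[X]) = C 1 := by
    have := reflect_monomial 1 1 (R := ℚ)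
    simpa using this
  rw [this]
  rw [pow_one, C_1, one_mul, add_comm]

lemma reflect_sq : reflect 2 ((X - 1 : ℚ[X]) ^ 2) = (X - 1) ^ 2 := by
  have h : ((X - 1 : ℚ[X]) ^ 2) = C 1 * X ^ 2 + C (-2) * X ^ 1 + C 1 * X ^ 0 := by
    rw [C_1, show (C (-2) : ℚ[X]) = -2 by rw [map_neg, map_ofNat]]; ring
  rw [h, reflect_add, reflect_add, reflect_C_mul_X_pow, reflect_C_mul_X_pow, reflect_C_mul_X_pow]
  simp only [revAt_le (show 2 ≤ 2 by norm_num), revAt_le (show 1 ≤ 2 by norm_num),
    revAt_le (show 0 ≤ 2 by norm_num)]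
  ring

/-- `Ps n` is the reflection of `P n` -/
theorem reflect_P (n : ℕ) : reflect n (P n) = Ps n := by
  have key : ∀ n, reflect n (P n) = Ps n ∧ reflect (n + 1) (P (n + 1)) = Ps (n + 1) := by
    intro n
    induction n with
    | zero =>
      rw [P_zero, zero_add, P_one, Ps_zero, Ps_one]
      constructor
      · rw [← C_1, reflect_C, pow_zero, mul_one]
      · have h : (1 + 2 * X : ℚ[X]) = C 1 * X ^ 0 + C 2 * X ^ 1 := by
          rw [C_1, show (C 2 : ℚ[X]) = 2 from map_ofNat C 2]; ring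
        rw [h, reflect_add, reflect_C_mul_X_pow, reflect_C_mul_X_pow]
        simp only [revAt_le (show 1 ≤ 1 by norm_num), revAt_le (show 0 ≤ 1 by norm_num)]
        rw [C_1, show (C 2 : ℚ[X]) = 2 from map_ofNat C 2]
        ring
    | succ n ih =>
      refine ⟨ih.2, ?_⟩
      obtain ⟨h1, h2⟩ := ih
      have e1 : (6 * (n:ℚ[X]) + 9) = C (6 * (n:ℚ) + 9) := by
        simp only [map_add, map_mul, map_natCast, map_ofNat]
      have e2 : (3 * (n:ℚ[X]) + 4) = C (3 * (n:ℚ) + 4) := by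
        simp only [map_add, map_mul, map_natCast, map_ofNat]
      rw [show n + 1 + 1 = n + 2 from rfl, P, Ps, e1, e2]
      have r1 : reflect (n + 2) ((1 + X) * P (n + 1)) = (1 + X) * Ps (n + 1) := by
        rw [show n + 2 = 1 + (n + 1) by omega,
          reflect_mul _ _ (by compute_degree) (natDegree_P_le (n + 1)), reflect_one_add, h2]
      have r2 : reflect (n + 2) ((X - 1) ^ 2 * P n) = (X - 1) ^ 2 * Ps n := by
        rw [show n + 2 = 2 + n by omega,
          reflect_mul _ _ (by compute_degree) (natDegree_P_le n), reflect_sq, h1]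
      rw [reflect_C_mul, reflect_sub, mul_assoc, mul_assoc, reflect_C_mul, reflect_C_mul, r1, r2,
        mul_assoc, mul_assoc]
  exact (key n).1

lemma reflect_Ps (n : ℕ) : reflect n (Ps n) = P n := by
  rw [← reflect_P n]
  ext k
  rw [coeff_reflect, coeff_reflect, revAt_invol]

/-! ### the Pade property for power series -/

noncomputable def phi : ℚ[X] →ₐ[ℚ] PowerSeries ℚ := Polynomial.aeval (pw (1 / 3))

lemma phi_X : phi X = pw (1 / 3) := by
  unfold phi; rw [aeval_X]

lemma pw_third_cube : pw (1 / 3) ^ 3 = 1 + PowerSeries.X := by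
  have h : pw (1/3) ^ 3 = pw (1/3 + 1/3 + 1/3) := by
    rw [pw_add, pw_add]; ring
  rw [h, show (1/3 + 1/3 + 1/3 : ℚ) = ((1 : ℕ) : ℚ) by norm_num, pw_nat, pow_one]

lemma phi_comp (p : ℚ[X]) : phi (p.comp (X ^ 3)) = ev p := by
  unfold phi ev
  rw [aeval_comp, map_pow, aeval_X, pw_third_cube]

lemma phi_E (n : ℕ) : phi (E n) = pw (1 / 3) * ev (Ps n) - ev (P n) := by
  unfold E
  rw [map_sub, map_mul, phi_X, phi_comp, phi_comp]

lemma X_dvd_phi : (PowerSeries.X : PowerSeries ℚ) ∣ phi (X - 1) := by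
  rw [PowerSeries.X_dvd_iff, map_sub, phi_X, map_one]
  rw [map_sub, map_one]
  unfold pw
  rw [PowerSeries.binomialSeries_constantCoeff, sub_self]

theorem pade_ps (n : ℕ) :
    (PowerSeries.X : PowerSeries ℚ) ^ (2 * n + 1) ∣ pw (1 / 3) * ev (Ps n) - ev (P n) := by
  rw [← phi_E]
  have h := map_dvd phi (pade n)
  rw [map_pow] at h
  exact (pow_dvd_pow_of_dvd X_dvd_phi _).trans h

/-- exchanging `Ps` and `P` inside a residue -/
theorem R_swap (m L : ℕ) (hm : m < 2 * L + 1) (c : ℚ) (G : ℚ[X]) :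
    R m (c + 1 / 3) (Ps L * G) = R m c (P L * G) := by
  obtain ⟨q, hq⟩ := pade_ps L
  have h : pw (c + 1/3) * ev (Ps L * G) = pw c * ev (P L * G)
      + PowerSeries.X ^ (2 * L + 1) * (q * pw c * ev G) := by
    rw [map_mul, map_mul, pw_add]
    linear_combination (pw c * ev G) * hq
  unfold R
  rw [h, map_add, PowerSeries.coeff_X_pow_mul', if_neg (by omega), add_zero]

lemma R_eq_sum' (m : ℕ) (c : ℚ) (F : ℚ[X]) (d : ℕ) (hF : F.natDegree ≤ d) :
    R m c F = ∑ k ∈ Finset.range (d + 1), F.coeff k * Ring.choose (c + k) m := by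
  rw [R_eq_sum]
  apply Finset.sum_subset
  · intro k hk
    rw [Finset.mem_range] at hk ⊢
    omega
  · intro k _ hk2
    rw [Finset.mem_range, not_lt] at hk2
    rw [coeff_eq_zero_of_natDegree_lt (by omega), zero_mul]

lemma choose_refl (x : ℚ) (m : ℕ) : Ring.choose ((m:ℚ) - 1 - x) m = (-1) ^ m * Ring.choose x m := by
  have h := Ring.choose_neg (x - m + 1) m
  rw [show -(x - (m:ℚ) + 1) = (m:ℚ) - 1 - x by ring, show x - (m:ℚ) + 1 + m - 1 = x by ring] at h
  rw [h]
  rw [Units.smul_def, Int.coe_negOnePow_natCast]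
  simp

/-- inversion `T -> 1/T` -/
theorem R_refl (m : ℕ) (c : ℚ) (F : ℚ[X]) (d : ℕ) (hF : F.natDegree ≤ d) :
    R m ((m:ℚ) - 1 - c - d) (reflect d F) = (-1) ^ m * R m c F := by
  have hd : (reflect d F).natDegree ≤ d := by
    rw [natDegree_le_iff_coeff_eq_zero]
    intro N hN
    rw [coeff_reflect, revAt_eq_self_of_lt hN, coeff_eq_zero_of_natDegree_lt (by omega)]
  rw [R_eq_sum' m _ _ d hd, R_eq_sum' m c F d hF, Finset.mul_sum,
    ← Finset.sum_range_reflect]
  apply Finset.sum_congr rfl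
  intro k hk
  rw [Finset.mem_range] at hk
  have h1 : d + 1 - 1 - k = d - k := by omega
  rw [h1, coeff_reflect, revAt_le (by omega), show d - (d - k) = k by omega]
  have h2 : (m:ℚ) - 1 - c - d + ((d - k : ℕ) : ℚ) = (m:ℚ) - 1 - (c + k) := by
    rw [Nat.cast_sub (by omega)]; ring
  rw [h2, choose_refl]
  ring

theorem R_anti (a b : ℕ) :
    R (2 * a + 2 * b + 1) (-2 / 3) (P (a + b + 1) * P a * Ps b)
      = - R (2 * a + 2 * b + 1) (-2 / 3) (P (a + b + 1) * P b * Ps a) := by
  set m := 2 * a + 2 * b + 1 with hm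
  have hF1 : (P (a + b + 1) * P a).natDegree ≤ (a + b + 1) + a :=
    natDegree_mul_le.trans (add_le_add (natDegree_P_le _) (natDegree_P_le _))
  have hF : (P (a + b + 1) * P a * Ps b).natDegree ≤ (a + b + 1) + a + b :=
    natDegree_mul_le.trans (add_le_add hF1 (natDegree_Ps_le _))
  have h := R_refl m (-2/3) _ _ hF
  rw [reflect_mul _ _ hF1 (natDegree_Ps_le b), reflect_mul _ _ (natDegree_P_le _)
    (natDegree_P_le _), reflect_P, reflect_P, reflect_Ps] at h
  have hodd : ((-1 : ℚ)) ^ m = -1 := by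
    rw [hm]; exact Odd.neg_one_pow ⟨a + b, by ring⟩
  rw [hodd] at h
  have hc : (m:ℚ) - 1 - (-2/3) - ((a + b + 1 + a + b : ℕ) : ℚ) = -2/3 + 1/3 := by
    rw [hm]; push_cast; ring
  rw [hc, mul_assoc, R_swap m (a + b + 1) (by omega) (-2/3)] at h
  rw [show P (a + b + 1) * P b * Ps a = P (a + b + 1) * (Ps a * P b) by ring]
  linarith

theorem R_self (L : ℕ) : R (2 * L) (-2 / 3) (P L * Ps L) = 1 := by
  rw [mul_comm (P L), show (-2/3 : ℚ) = -1 + 1/3 by norm_num, R_swap (2 * L) L (by omega) (-1)]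
  have hd : (P L * P L).natDegree ≤ 2 * L := by
    refine natDegree_mul_le.trans ?_
    have := natDegree_P_le L
    omega
  rw [R_eq_sum' (2 * L) (-1) _ (2 * L) hd, Finset.sum_range_succ']
  have h0 : ∑ k ∈ Finset.range (2 * L), (P L * P L).coeff (k + 1) *
      Ring.choose ((-1:ℚ) + ((k + 1 : ℕ) : ℚ)) (2 * L) = 0 := by
    apply Finset.sum_eq_zero
    intro k hk
    rw [Finset.mem_range] at hk
    rw [show (-1:ℚ) + ((k + 1 : ℕ) : ℚ) = ((k : ℕ) : ℚ) by push_cast; ring, Ring.choose_natCast,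
      Nat.choose_eq_zero_of_lt hk, Nat.cast_zero, mul_zero]
  rw [h0, zero_add]
  have h1 : (P L * P L).coeff 0 = 1 := by
    rw [mul_coeff_zero, coeff_zero_eq_eval_zero, eval_zero_P]; norm_num
  have h2 : Ring.choose ((-1:ℚ) + ((0 : ℕ) : ℚ)) (2 * L) = 1 := by
    have := choose_refl ((2 * L : ℕ) : ℚ) (2 * L)
    rw [show (((2 * L : ℕ) : ℚ) - 1 - ((2 * L : ℕ) : ℚ)) = (-1:ℚ) + ((0 : ℕ) : ℚ) by push_cast; ring,
      Ring.choose_natCast, Nat.choose_self] at this
    rw [this, pow_mul]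
    norm_num
  rw [h1, h2, one_mul]

/-! ### link with `Rs` and `M` of `Pool.Agent.H28R2.Cardy` -/

open Pool.Agent.H28R2.Cardy (Rs Rs_monomial Ladder M_eq_tail M_eq Qs W)

theorem Rs_eq_R (α : ℚ) (m : ℕ) (g : ℚ[X]) : Rs α m g = R m α g := by
  induction g using Polynomial.induction_on' with
  | add p q hp hq => rw [map_add, R_add, hp, hq]
  | monomial k c => rw [Rs_monomial, R_monomial, add_comm, mul_comm]

lemma C_div3 (x : ℚ[X]) (r : ℚ) (h : C (3 * r) = x) : x = 3 * C r := by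
  rw [← h, C_mul, map_ofNat]

theorem ladder : Ladder P Ps where
  P0 := P_zero
  Ps0 := Ps_zero
  L1 n := by
    have h := P_L1 n
    have h3 : (3 : ℚ[X]) ≠ 0 := by norm_num
    have e : (3 * (n:ℚ[X]) + 4) = 3 * C ((n:ℚ) + 4/3) := by
      apply C_div3
      rw [show 3 * ((n:ℚ) + 4/3) = 3 * (n:ℚ) + 4 by ring]
      simp only [map_add, map_mul, map_natCast, map_ofNat]
    rw [e] at h
    apply mul_left_cancel₀ h3
    linear_combination h
  L2 n := by
    have h := Ps_L2 n
    have h3 : (3 : ℚ[X]) ≠ 0 := by norm_num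
    have e : (3 * (n:ℚ[X]) + 4) = 3 * C ((n:ℚ) + 4/3) := by
      apply C_div3
      rw [show 3 * ((n:ℚ) + 4/3) = 3 * (n:ℚ) + 4 by ring]
      simp only [map_add, map_mul, map_natCast, map_ofNat]
    have e2 : (3 * (n:ℚ[X]) + 2) = 3 * C ((n:ℚ) + 2/3) := by
      apply C_div3
      rw [show 3 * ((n:ℚ) + 2/3) = 3 * (n:ℚ) + 2 by ring]
      simp only [map_add, map_mul, map_natCast, map_ofNat]
    rw [e, e2] at h
    apply mul_left_cancel₀ h3
    linear_combination h
  U1 n := by
    have h := P_U1 n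
    have h3 : (3 : ℚ[X]) ≠ 0 := by norm_num
    have e : (9 * (n:ℚ[X]) + 4) = 3 * C (3 * (n:ℚ) + 4/3) := by
      apply C_div3
      rw [show 3 * (3 * (n:ℚ) + 4/3) = 9 * (n:ℚ) + 4 by ring]
      simp only [map_add, map_mul, map_natCast, map_ofNat]
    have e2 : (3 * (n:ℚ[X]) + 2) = 3 * C ((n:ℚ) + 2/3) := by
      apply C_div3
      rw [show 3 * ((n:ℚ) + 2/3) = 3 * (n:ℚ) + 2 by ring]
      simp only [map_add, map_mul, map_natCast, map_ofNat]
    rw [e, e2] at h
    apply mul_left_cancel₀ h3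
    linear_combination h

theorem hr (L : ℕ) : Rs (-2 / 3) (2 * L) (P L * Ps L) = 1 := by
  rw [Rs_eq_R]; exact R_self L

theorem hanti (a b : ℕ) : Pool.Agent.H28R2.Cardy.M P Ps a b
    = - Pool.Agent.H28R2.Cardy.M P Ps b a := by
  unfold Pool.Agent.H28R2.Cardy.M
  rw [Rs_eq_R, Rs_eq_R, R_anti a b, show b + a + 1 = a + b + 1 by omega,
    show 2 * b + 2 * a + 1 = 2 * a + 2 * b + 1 by omega]

/-- **Evaluation of the residue**: `M(a,b) = 1 - 2 p(a,b)`, unconditional. -/
theorem M_eval (a b : ℕ) : Pool.Agent.H28R2.Cardy.M P Ps a b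
    = 1 - 2 * ∑ k ∈ Finset.Ico (a + 1) (a + b + 2), W (a + b + 1) k :=
  M_eq_tail ladder hr hanti a b

/-- the same for my functional -/
theorem M_eval' (a b : ℕ) : M (a + b + 1) (P a * Ps b)
    = 1 - 2 * ∑ k ∈ Finset.Ico (a + 1) (a + b + 2), W (a + b + 1) k := by
  rw [← M_eval]
  unfold M Pool.Agent.H28R2.Cardy.M
  rw [Rs_eq_R, show 2 * (a + b + 1) - 1 = 2 * a + 2 * b + 1 by omega, mul_assoc]

end H337CB
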