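import Pool.Agent.H337R2.CB.Pade2

/-!
The functional `M_L` and its evaluation: `M_(a+b+1)(P_a Ps_b) = 2 sum_{k<=a} w_k(a+b+1) - 1`.
-/

namespace H337CB

open Polynomial

/-- substitution `T = 1 + y` -/
noncomputable def ev : ℚ[X] →ₐ[ℚ] PowerSeries ℚ := Polynomial.aeval (1 + PowerSeries.X)

/-- `(1+y)^c` -/
noncomputable def pw (c : ℚ) : PowerSeries ℚ := PowerSeries.binomialSeries ℚ c

lemma pw_coeff (c : ℚ) (m : ℕ) : PowerSeries.coeff m (pw c) = Ring.choose c m := by
  unfold pw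
  rw [PowerSeries.binomialSeries_coeff, smul_eq_mul, mul_one]

lemma pw_add (c d : ℚ) : pw (c + d) = pw c * pw d := PowerSeries.binomialSeries_add c d

lemma pw_nat (k : ℕ) : pw (k : ℚ) = (1 + PowerSeries.X) ^ k := PowerSeries.binomialSeries_nat k

lemma ev_X : ev X = 1 + PowerSeries.X := by
  unfold ev; rw [aeval_X]

lemma ev_X_sub_one : ev (X - 1) = PowerSeries.X := by
  rw [map_sub, ev_X, map_one]; ring

/-- the residue functional `Res_{T=1} (T-1)^(-m-1) T^c F(T) dT` -/
noncomputable def R (m : ℕ) (c : ℚ) (F : ℚ[X]) : ℚ := PowerSeries.coeff m (pw c * ev F)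

lemma R_add (m : ℕ) (c : ℚ) (F G : ℚ[X]) : R m c (F + G) = R m c F + R m c G := by
  unfold R; rw [map_add, mul_add, map_add]

lemma R_sub (m : ℕ) (c : ℚ) (F G : ℚ[X]) : R m c (F - G) = R m c F - R m c G := by
  unfold R; rw [map_sub, mul_sub, map_sub]

lemma R_C (m : ℕ) (c : ℚ) (a : ℚ) (F : ℚ[X]) : R m c (C a * F) = a * R m c F := by
  unfold R
  rw [← smul_eq_C_mul, map_smul, mul_smul_comm, PowerSeries.coeff_smul, smul_eq_mul]

lemma R_nat (m : ℕ) (c : ℚ) (a : ℕ) (F : ℚ[X]) : R m c ((a : ℚ[X]) * F) = a * R m c F := by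
  have := R_C m c a F
  rwa [map_natCast] at this

lemma R_zero (m : ℕ) (c : ℚ) : R m c 0 = 0 := by
  unfold R; simp

lemma R_Xpow (m : ℕ) (c : ℚ) (k : ℕ) : R m c (X ^ k) = Ring.choose (c + k) m := by
  unfold R
  rw [map_pow, ev_X, ← pw_nat, ← pw_add, pw_coeff]

lemma R_monomial (m : ℕ) (c : ℚ) (k : ℕ) (a : ℚ) :
    R m c (monomial k a) = a * Ring.choose (c + k) m := by
  rw [← C_mul_X_pow_eq_monomial, R_C, R_Xpow]

/-- sum form of the functional -/
theorem R_eq_sum (m : ℕ) (c : ℚ) (F : ℚ[X]) :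
    R m c F = ∑ k ∈ Finset.range (F.natDegree + 1), F.coeff k * Ring.choose (c + k) m := by
  have h : R m c F = R m c (∑ k ∈ Finset.range (F.natDegree + 1), monomial k (F.coeff k)) := by
    rw [← F.as_sum_range]
  rw [h]
  have hs : ∀ s : Finset ℕ, R m c (∑ k ∈ s, monomial k (F.coeff k))
      = ∑ k ∈ s, F.coeff k * Ring.choose (c + k) m := by
    intro s
    induction s using Finset.induction_on with
    | empty => simp [R_zero]
    | insert a s ha ih => rw [Finset.sum_insert ha, Finset.sum_insert ha, R_add, ih, R_monomial]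
  exact hs _

lemma choose_succ (x : ℚ) (m : ℕ) : ((m:ℚ) + 1) * Ring.choose x (m + 1) = (x - m) * Ring.choose x m := by
  have h1 := Ring.descPochhammer_eq_factorial_smul_choose x (m + 1)
  have h2 := Ring.descPochhammer_eq_factorial_smul_choose x m
  rw [descPochhammer_succ_right, Polynomial.smeval_mul, h2, Polynomial.smeval_sub,
    Polynomial.smeval_X, Polynomial.smeval_natCast, Nat.factorial_succ] at h1
  simp only [nsmul_eq_mul, pow_one, pow_zero, mul_one] at h1
  have h3 : ((m.factorial : ℕ) : ℚ) ≠ 0 := by exact_mod_cast m.factorial_ne_zero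
  apply mul_left_cancel₀ h3
  push_cast at h1
  linear_combination -h1

lemma choose_pred (x : ℚ) (m : ℕ) : x * Ring.choose (x - 1) m = (x - m) * Ring.choose x m := by
  have h1 := Ring.choose_succ_succ (x - 1) m
  rw [sub_add_cancel] at h1
  have h2 := choose_succ x m
  have h3 := choose_succ (x - 1) m
  linear_combination h2 - h3 - ((m:ℚ) + 1) * h1

/-- the residue of a derivative vanishes -/
theorem R_deriv (m : ℕ) (c : ℚ) (F : ℚ[X]) :
    R m (c - 1) ((X - 1) * (C c * F + X * derivative F) - (m : ℚ[X]) * (X * F)) = 0 := by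
  induction F using Polynomial.induction_on' with
  | add p q hp hq =>
    have : (X - 1) * (C c * (p + q) + X * derivative (p + q)) - (m : ℚ[X]) * (X * (p + q)) =
      ((X - 1) * (C c * p + X * derivative p) - (m : ℚ[X]) * (X * p)) +
      ((X - 1) * (C c * q + X * derivative q) - (m : ℚ[X]) * (X * q)) := by
      rw [derivative_add]; ring
    rw [this, R_add, hp, hq, add_zero]
  | monomial k a =>
    have e1 : X * derivative (monomial k a) = C (k:ℚ) * monomial k a := by
      rw [derivative_monomial]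
      rcases k with _ | k
      · simp
      · rw [Nat.add_sub_cancel, X_mul_monomial, C_mul_monomial, mul_comm a]
    have e2 : X * monomial k a = monomial (k + 1) a := X_mul_monomial k a
    have e3 : (X - 1) * (C c * monomial k a + X * derivative (monomial k a))
        - (m : ℚ[X]) * (X * monomial k a)
        = C (c + k - m) * monomial (k + 1) a - C (c + k) * monomial k a := by
      rw [e1, ← e2, C_sub, C_add, ← map_natCast C m]
      ring
    rw [e3, R_sub, R_C, R_C, R_monomial, R_monomial]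
    have h := choose_pred (c + k) m
    have h1 : c - 1 + ((k + 1 : ℕ) : ℚ) = c + k := by push_cast; ring
    have h2 : c - 1 + (k : ℚ) = c + k - 1 := by ring
    rw [h1, h2]
    linear_combination -a * h

lemma R_shift2 (m : ℕ) (c : ℚ) (F : ℚ[X]) : R (m + 2) c ((1 - X) ^ 2 * F) = R m c F := by
  unfold R
  have : ev ((1 - X) ^ 2 * F) = PowerSeries.X ^ 2 * ev F := by
    rw [show (1 - X : ℚ[X]) ^ 2 = (X - 1) ^ 2 by ring, map_mul, map_pow, ev_X_sub_one]
  rw [this, mul_left_comm, PowerSeries.coeff_X_pow_mul]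

lemma R_shift1 (m : ℕ) (c : ℚ) (F : ℚ[X]) : R (m + 1) c ((1 - X) * F) = - R m c F := by
  unfold R
  have : ev ((1 - X) * F) = - (PowerSeries.X * ev F) := by
    rw [show (1 - X : ℚ[X]) = -(X - 1) by ring, map_mul, map_neg, ev_X_sub_one]; ring
  rw [this, mul_neg, map_neg, mul_left_comm, PowerSeries.coeff_succ_X_mul]

/-- `M_L(h) = Res_{T=1} (T-1)^(-2L) T^(-2/3) P_L h dT` -/
noncomputable def M (L : ℕ) (h : ℚ[X]) : ℚ := R (2 * L - 1) (-2 / 3) (P L * h)

/-- sum form -/
theorem M_eq_sum (L : ℕ) (h : ℚ[X]) : M L h = ∑ k ∈ Finset.range ((P L * h).natDegree + 1),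
    (P L * h).coeff k * Ring.choose ((k:ℚ) - 2 / 3) (2 * L - 1) := by
  unfold M
  rw [R_eq_sum]
  apply Finset.sum_congr rfl
  intro k _
  congr 2
  ring

/-- the Polya urn recursion -/
theorem polya (a b : ℕ) :
    (3 * ((a + b + 2 : ℕ) : ℚ) + 2) * M (a + b + 3) (P (a + 1) * Ps (b + 1)) =
      (3 * (b:ℚ) + 4) * M (a + b + 2) (P (a + 1) * Ps b)
      + (3 * (a:ℚ) + 4) * M (a + b + 2) (P a * Ps (b + 1)) := by
  set L := a + b + 2 with hL
  set F := P (a + 1) * P L * Ps (b + 1) with hF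
  have h1 := P_L1 a
  have h2 := P_U1 L
  have h3 := Ps_L2 b
  have hLc : ((L:ℕ) : ℚ[X]) = (a : ℚ[X]) + b + 2 := by rw [hL]; push_cast; ring
  have hder : derivative F = derivative (P (a + 1)) * P L * Ps (b + 1)
      + P (a + 1) * derivative (P L) * Ps (b + 1) + P (a + 1) * P L * derivative (Ps (b + 1)) := by
    rw [hF, derivative_mul, derivative_mul]; ring
  have hC : (C (1/3 : ℚ)) * 3 = (1 : ℚ[X]) := by
    rw [show (3 : ℚ[X]) = C 3 from (map_ofNat C 3).symm, ← C_mul]; norm_num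
  have key : ((-6 : ℚ[X])) * ((X - 1) * (C (1/3) * F + X * derivative F)
      - ((2 * L + 1 : ℕ) : ℚ[X]) * (X * F)) =
      ((3 * L + 2 : ℕ) : ℚ[X]) * (P (L + 1) * (P (a + 1) * Ps (b + 1)))
      - ((3 * b + 4 : ℕ) : ℚ[X]) * ((1 - X) ^ 2 * (P L * (P (a + 1) * Ps b)))
      - ((3 * a + 4 : ℕ) : ℚ[X]) * ((1 - X) ^ 2 * (P L * (P a * Ps (b + 1)))) := by
    rw [hder]
    push_cast
    rw [hLc] at h2 ⊢
    rw [hF]
    linear_combination ((1 - X) * P L * Ps (b + 1)) * h1 + (P (a + 1) * Ps (b + 1)) * h2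
      + ((1 - X) * P (a + 1) * P L) * h3 + (2 * (1 - X) * (P (a + 1) * P L * Ps (b + 1))) * hC
  have h0 := R_deriv (2 * L + 1) (1/3) F
  have h4 : R (2 * L + 1) (1/3 - 1) ((-6 : ℚ[X]) * ((X - 1) * (C (1/3) * F + X * derivative F)
      - ((2 * L + 1 : ℕ) : ℚ[X]) * (X * F))) = 0 := by
    rw [show (-6 : ℚ[X]) = C (-6) by rw [map_neg, map_ofNat], R_C, h0, mul_zero]
  rw [key, R_sub, R_sub, R_nat, R_nat, R_nat] at h4
  obtain ⟨j, hj⟩ : ∃ j, 2 * L - 1 = j ∧ 2 * L + 1 = j + 2 := ⟨2 * L - 1, rfl, by omega⟩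
  rw [hj.2, R_shift2, R_shift2, ← hj.2] at h4
  unfold M
  rw [show a + b + 3 = L + 1 by omega, show 2 * (L + 1) - 1 = 2 * L + 1 by omega, hj.1]
  rw [show (1/3 - 1 : ℚ) = -2/3 by norm_num] at h4
  push_cast at h4 ⊢
  linear_combination h4

end H337CB
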