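import Pool.Agent.H337R2.CB.Inst
import Pool.Agent.H981R2.CD.Defs

/-!
The interface of `Pool.Agent.H981R2.CD.Defs`: `IsPade P Ps` and the value of `ML`.
-/

namespace H337CB

open Polynomial Pool.Agent.H981R2.CD

theorem isPade : IsPade P Ps where
  deg := natDegree_P_le
  refl n := (reflect_P n).symm
  const n := by rw [coeff_zero_eq_eval_zero, eval_zero_P]
  div n := by
    have h := pade n
    unfold E at h
    rwa [expand_eq_comp_X_pow, expand_eq_comp_X_pow]

theorem M_eq_sum' (L : ℕ) (h : ℚ[X]) :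
    (P L * h).sum (fun k c => c * Ring.choose ((k:ℚ) - 2/3) (2*L-1)) = M L h := by
  rw [M_eq_sum, Polynomial.sum_over_range' _ _ ((P L * h).natDegree + 1) (Nat.lt_succ_self _)]
  intro n
  rw [zero_mul]

/-- the value of `ML` -/
theorem ML_value (hS : S_MLsum) (a b : ℕ) : ML P (a + b + 1) (P a * Ps b)
    = 1 - 2 * ∑ k ∈ Finset.Ico (a + 1) (a + b + 2), Pool.Agent.H28R2.Cardy.W (a + b + 1) k := by
  rw [hS P (a + b + 1) (by omega), M_eq_sum', M_eval']

/-- antisymmetric combination: `(M(a,b) - M(b,a)) / 2 = 1 - 2 p(a,b)` -/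
theorem ML_half (hS : S_MLsum) (a b : ℕ) :
    (ML P (a + b + 1) (P a * Ps b) - ML P (a + b + 1) (P b * Ps a)) / 2
    = 1 - 2 * ∑ k ∈ Finset.Ico (a + 1) (a + b + 2), Pool.Agent.H28R2.Cardy.W (a + b + 1) k := by
  have h1 := ML_value hS a b
  have h2 : ML P (a + b + 1) (P b * Ps a) = - ML P (a + b + 1) (P a * Ps b) := by
    rw [hS P (a + b + 1) (by omega), hS P (a + b + 1) (by omega), M_eq_sum', M_eq_sum']
    have h := R_anti b a
    unfold M
    rw [show 2 * (a + b + 1) - 1 = 2 * b + 2 * a + 1 by omega, ← mul_assoc, ← mul_assoc,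
      show a + b + 1 = b + a + 1 by omega]
    exact h
  rw [h2, h1]
  ring

end H337CB
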