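import Mathlib

/-!
Polynomials `P n`, `Ps n` (Pade approximants of `T^(1/3)` at `T = 1`), their first order
relations, and the functional `M`.
-/

namespace H337CB

open Polynomial

/-- the polynomials `P_n` -/
noncomputable def P : ℕ → ℚ[X]
  | 0 => 1
  | 1 => 1 + 2 * X
  | n + 2 => C (1 / (3 * (n:ℚ) + 5)) *
      ((6 * (n:ℚ[X]) + 9) * (1 + X) * P (n + 1) - (3 * (n:ℚ[X]) + 4) * (X - 1) ^ 2 * P n)

/-- the reflected polynomials `P*_n` -/
noncomputable def Ps : ℕ → ℚ[X]
  | 0 => 1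
  | 1 => X + 2
  | n + 2 => C (1 / (3 * (n:ℚ) + 5)) *
      ((6 * (n:ℚ[X]) + 9) * (1 + X) * Ps (n + 1) - (3 * (n:ℚ[X]) + 4) * (X - 1) ^ 2 * Ps n)

lemma P_zero : P 0 = 1 := rfl
lemma P_one : P 1 = 1 + 2 * X := rfl
lemma Ps_zero : Ps 0 = 1 := rfl
lemma Ps_one : Ps 1 = X + 2 := rfl

lemma cinv (n : ℕ) : (3 * (n:ℚ[X]) + 5) * C (1 / (3 * (n:ℚ) + 5)) = 1 := by
  have h : (3 * (n:ℚ[X]) + 5) = C (3 * (n:ℚ) + 5) := by
    simp only [map_add, map_mul, map_natCast, map_ofNat]
  rw [h, ← C_mul]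
  have : (3 * (n:ℚ) + 5) ≠ 0 := by positivity
  rw [mul_one_div_cancel this, C_1]

/-- recurrence, denominators cleared: `(3n+5) P_(n+2) = (6n+9)(1+T)P_(n+1) - (3n+4)(T-1)^2 P_n` -/
theorem P_rec (n : ℕ) : (3 * (n:ℚ[X]) + 5) * P (n + 2) =
    (6 * (n:ℚ[X]) + 9) * (1 + X) * P (n + 1) - (3 * (n:ℚ[X]) + 4) * (X - 1) ^ 2 * P n := by
  rw [P, ← mul_assoc, cinv, one_mul]

theorem Ps_rec (n : ℕ) : (3 * (n:ℚ[X]) + 5) * Ps (n + 2) =
    (6 * (n:ℚ[X]) + 9) * (1 + X) * Ps (n + 1) - (3 * (n:ℚ[X]) + 4) * (X - 1) ^ 2 * Ps n := by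
  rw [Ps, ← mul_assoc, cinv, one_mul]

lemma cne (n : ℕ) : (3 * (n:ℚ[X]) + 5) ≠ 0 := by
  intro h
  have := cinv n
  rw [h, zero_mul] at this
  exact zero_ne_one this

lemma dnat (n : ℕ) : derivative (n : ℚ[X]) = 0 := derivative_natCast

/-- derivative of the recurrence -/
lemma P_rec_der (n : ℕ) : (3 * (n:ℚ[X]) + 5) * derivative (P (n + 2)) =
    (6 * (n:ℚ[X]) + 9) * (P (n + 1) + (1 + X) * derivative (P (n + 1)))
      - (3 * (n:ℚ[X]) + 4) * (2 * (X - 1) * P n + (X - 1) ^ 2 * derivative (P n)) := by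
  have h := congrArg derivative (P_rec n)
  simp only [derivative_mul, derivative_sub, derivative_add, derivative_natCast, derivative_ofNat,
    derivative_one, derivative_X, derivative_pow, zero_mul, mul_zero, zero_add, add_zero,
    sub_zero, Nat.cast_ofNat, mul_one] at h
  norm_num at h
  rw [show (C (2:ℚ)) = (2:ℚ[X]) from map_ofNat C 2] at h
  linear_combination h

lemma Ps_rec_der (n : ℕ) : (3 * (n:ℚ[X]) + 5) * derivative (Ps (n + 2)) =
    (6 * (n:ℚ[X]) + 9) * (Ps (n + 1) + (1 + X) * derivative (Ps (n + 1)))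
      - (3 * (n:ℚ[X]) + 4) * (2 * (X - 1) * Ps n + (X - 1) ^ 2 * derivative (Ps n)) := by
  have h := congrArg derivative (Ps_rec n)
  simp only [derivative_mul, derivative_sub, derivative_add, derivative_natCast, derivative_ofNat,
    derivative_one, derivative_X, derivative_pow, zero_mul, mul_zero, zero_add, add_zero,
    sub_zero, Nat.cast_ofNat, mul_one] at h
  norm_num at h
  rw [show (C (2:ℚ)) = (2:ℚ[X]) from map_ofNat C 2] at h
  linear_combination h

/-- both first order relations for `P` -/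
theorem P_LU (n : ℕ) :
    (6 * X * derivative (P (n + 1)) = (3 * (n:ℚ[X]) + 4) * (P (n + 1) - (1 - X) * P n)) ∧
    (6 * X * (1 - X) * derivative (P n) =
      - ((3 * (n:ℚ[X]) + 2) + (9 * (n:ℚ[X]) + 4) * X) * P n + (3 * (n:ℚ[X]) + 2) * P (n + 1)) := by
  induction n with
  | zero =>
    rw [P_zero, zero_add, P_one]
    constructor
    · simp only [derivative_add, derivative_one, derivative_mul, derivative_ofNat, derivative_X]
      push_cast; ring
    · simp only [derivative_one]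
      push_cast; ring
  | succ n ih =>
    obtain ⟨h1, h2⟩ := ih
    have hr := P_rec n
    have hd := P_rec_der n
    constructor
    · apply mul_left_cancel₀ (cne n)
      push_cast
      linear_combination (6 * X) * hd + (6 * (n:ℚ[X]) + 9) * (1 + X) * h1
        - (3 * (n:ℚ[X]) + 4) * (1 - X) * h2 - (3 * (n:ℚ[X]) + 7) * hr
    · push_cast
      linear_combination (1 - X) * h1 - hr

theorem Ps_LU (n : ℕ) :
    (6 * X * derivative (Ps (n + 1)) = (3 * (n:ℚ[X]) + 2) * Ps (n + 1)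
      - (3 * (n:ℚ[X]) + 4) * (1 - X) * Ps n) ∧
    (6 * X * (1 - X) * derivative (Ps n) =
      - ((3 * (n:ℚ[X]) + 4) + (9 * (n:ℚ[X]) + 2) * X) * Ps n
        + (3 * (n:ℚ[X]) + 2) * Ps (n + 1)) := by
  induction n with
  | zero =>
    rw [Ps_zero, zero_add, Ps_one]
    constructor
    · simp only [derivative_add, derivative_one, derivative_mul, derivative_ofNat, derivative_X]
      push_cast; ring
    · simp only [derivative_one]
      push_cast; ring
  | succ n ih =>
    obtain ⟨h1, h2⟩ := ih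
    have hr := Ps_rec n
    have hd := Ps_rec_der n
    constructor
    · apply mul_left_cancel₀ (cne n)
      push_cast
      linear_combination (6 * X) * hd + (6 * (n:ℚ[X]) + 9) * (1 + X) * h1
        - (3 * (n:ℚ[X]) + 4) * (1 - X) * h2 - (3 * (n:ℚ[X]) + 5) * hr
    · push_cast
      linear_combination (1 - X) * h1 - hr

theorem P_L1 (n : ℕ) :
    6 * X * derivative (P (n + 1)) = (3 * (n:ℚ[X]) + 4) * (P (n + 1) - (1 - X) * P n) :=
  (P_LU n).1
theorem P_U1 (n : ℕ) :
    6 * X * (1 - X) * derivative (P n) =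
      - ((3 * (n:ℚ[X]) + 2) + (9 * (n:ℚ[X]) + 4) * X) * P n + (3 * (n:ℚ[X]) + 2) * P (n + 1) :=
  (P_LU n).2
theorem Ps_L2 (n : ℕ) :
    6 * X * derivative (Ps (n + 1)) = (3 * (n:ℚ[X]) + 2) * Ps (n + 1)
      - (3 * (n:ℚ[X]) + 4) * (1 - X) * Ps n := (Ps_LU n).1

/-- values at 1 -/
theorem eval_one_eq (n : ℕ) : (P n).eval 1 = (Ps n).eval 1 := by
  have key : ∀ n, (P n).eval 1 = (Ps n).eval 1 ∧ (P (n + 1)).eval 1 = (Ps (n + 1)).eval 1 := by
    intro n
    induction n with
    | zero => rw [P_zero, zero_add, P_one, Ps_zero, Ps_one]; norm_num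
    | succ n ih =>
      refine ⟨ih.2, ?_⟩
      have h1 := congrArg (eval 1) (P_rec n)
      have h2 := congrArg (eval 1) (Ps_rec n)
      simp only [eval_mul, eval_add, eval_sub, eval_pow, eval_X, eval_one, eval_natCast,
        eval_ofNat] at h1 h2
      rw [ih.2] at h1
      have h3 : (3 * (n:ℚ) + 5) ≠ 0 := by positivity
      apply mul_left_cancel₀ h3
      linear_combination h1 - h2
  exact (key n).1

theorem eval_zero_P (n : ℕ) : (P n).eval 0 = 1 := by
  have key : ∀ n, (P n).eval 0 = 1 ∧ (P (n + 1)).eval 0 = 1 := by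
    intro n
    induction n with
    | zero => rw [P_zero, zero_add, P_one]; norm_num
    | succ n ih =>
      refine ⟨ih.2, ?_⟩
      have h1 := congrArg (eval 0) (P_rec n)
      simp only [eval_mul, eval_add, eval_sub, eval_pow, eval_X, eval_one, eval_natCast,
        eval_ofNat] at h1
      rw [ih.2, ih.1] at h1
      have h3 : (3 * (n:ℚ) + 5) ≠ 0 := by positivity
      apply mul_left_cancel₀ h3
      linear_combination h1
  exact (key n).1

end H337CB
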