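import Pool.Agent.H337R2.CB.Pade

/-!
Pade property and the functional `M`.
-/

namespace H337CB

open Polynomial

/-- `E n = X Ps_n(X^3) - P_n(X^3)` -/
noncomputable def E (n : ℕ) : ℚ[X] := X * (Ps n).comp (X ^ 3) - (P n).comp (X ^ 3)

lemma dcomp (p : ℚ[X]) : X * derivative (p.comp (X ^ 3)) = 3 * ((X * derivative p).comp (X ^ 3)) := by
  rw [derivative_comp, derivative_X_pow]
  simp only [mul_comp, X_comp]
  rw [show (C ((3:ℕ):ℚ)) = (3:ℚ[X]) from map_ofNat C 3]
  ring

/-- `2 X E_(n+1)' = (3n+4) (E_(n+1) - (1-X^3) E_n)` -/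
theorem E_ode (n : ℕ) : 2 * X * derivative (E (n + 1)) =
    (3 * (n:ℚ[X]) + 4) * (E (n + 1) - (1 - X ^ 3) * E n) := by
  have h1 := congrArg (fun q => q.comp (X ^ 3 : ℚ[X])) (P_L1 n)
  have h2 := congrArg (fun q => q.comp (X ^ 3 : ℚ[X])) (Ps_L2 n)
  simp only [mul_comp, add_comp, sub_comp, X_comp, natCast_comp, ofNat_comp, one_comp] at h1 h2
  have d1 := dcomp (P (n + 1))
  have d2 := dcomp (Ps (n + 1))
  simp only [mul_comp, X_comp] at d1 d2
  have hE : derivative (E (n + 1)) = (Ps (n + 1)).comp (X ^ 3)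
      + X * derivative ((Ps (n + 1)).comp (X ^ 3)) - derivative ((P (n + 1)).comp (X ^ 3)) := by
    unfold E
    rw [derivative_sub, derivative_mul, derivative_X]
    ring
  rw [hE]
  unfold E
  linear_combination (2 * X) * d2 - 2 * d1 + X * h2 - h1

theorem E_eval_one (n : ℕ) : (E n).eval 1 = 0 := by
  unfold E
  rw [eval_sub, eval_mul, eval_X, eval_comp, eval_comp, eval_pow, eval_X, one_pow, one_mul,
    eval_one_eq, sub_self]

/-- order lemma -/
lemma order_lem (F G : ℚ[X]) (c : ℚ[X]) (m : ℕ)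
    (h : 2 * X * derivative F = c * (F - (1 - X ^ 3) * G)) (h0 : F.eval 1 = 0)
    (hG : (X - 1) ^ m ∣ G) : (X - 1) ^ (m + 2) ∣ F := by
  obtain ⟨G', rfl⟩ := hG
  have key : ∀ k, k ≤ m + 2 → (X - 1 : ℚ[X]) ^ k ∣ F := by
    intro k
    induction k with
    | zero => intro _; simp
    | succ k ih =>
      intro hk
      obtain ⟨q, hq⟩ := ih (by omega)
      rcases Nat.eq_zero_or_pos k with hk0 | hk0
      · subst hk0
        rw [zero_add, pow_one]
        have := dvd_iff_isRoot.mpr (show IsRoot F 1 from h0)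
        rwa [C_1] at this
      · obtain ⟨j, rfl⟩ : ∃ j, k = j + 1 := ⟨k - 1, by omega⟩
        have hx : (X - 1 : ℚ[X]) ≠ 0 := X_sub_C_ne_zero (1:ℚ) |> fun h => by rwa [C_1] at h
        have hd : derivative F = ((j + 1 : ℕ) : ℚ[X]) * (X - 1) ^ j * q
            + (X - 1) ^ (j + 1) * derivative q := by
          rw [hq, derivative_mul, derivative_pow]
          simp only [derivative_sub, derivative_X, derivative_one, sub_zero, mul_one,
            Nat.add_sub_cancel, map_natCast]
        obtain ⟨i, hi⟩ : ∃ i, m = j + i := ⟨m - j, by omega⟩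
        have e1 : (X - 1 : ℚ[X]) ^ j * (2 * X * (((j + 1 : ℕ) : ℚ[X]) * q
            + (X - 1) * derivative q)) = (X - 1) ^ j * (c * ((X - 1) * q
              + (X - 1) * (1 + X + X ^ 2) * ((X - 1) ^ i * G'))) := by
          rw [hd] at h
          rw [hi, pow_add] at h
          rw [hq] at h
          linear_combination h
        have e2 := mul_left_cancel₀ (pow_ne_zero j hx) e1
        have e3 := congrArg (eval 1) e2
        simp only [eval_mul, eval_add, eval_sub, eval_X, eval_one, eval_natCast, eval_ofNat,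
          sub_self, zero_mul, mul_zero, add_zero] at e3
        have e4 : (q.eval 1) = 0 := by
          have : ((j + 1 : ℕ) : ℚ) ≠ 0 := by positivity
          have h5 : 2 * 1 * (((j + 1 : ℕ) : ℚ) * eval 1 q) = 0 := e3
          have h6 : ((j + 1 : ℕ) : ℚ) * eval 1 q = 0 := by linarith
          exact (mul_eq_zero.mp h6).resolve_left this
        have e5 := dvd_iff_isRoot.mpr (show IsRoot q 1 from e4)
        rw [C_1] at e5
        obtain ⟨r, hr⟩ := e5
        refine ⟨r, ?_⟩
        rw [hq, hr]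
        ring
  exact key (m + 2) le_rfl

/-- **Pade property** : `(X-1)^(2n+1) ∣ X Ps_n(X^3) - P_n(X^3)` -/
theorem pade (n : ℕ) : (X - 1 : ℚ[X]) ^ (2 * n + 1) ∣ E n := by
  induction n with
  | zero =>
    refine ⟨1, ?_⟩
    unfold E
    rw [P_zero, Ps_zero]
    simp
  | succ n ih =>
    exact order_lem (E (n + 1)) (E n) (3 * (n:ℚ[X]) + 4) (2 * n + 1) (E_ode n)
      (E_eval_one (n + 1)) ih

end H337CB
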